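import Pool.Agent.Helper19.PQ.St.Stubs

/-!
# Project PQ, piece 6: the derivative of an umbilic field
-/

open MeasureTheory Set Metric Filter Module Matrix
open scoped NNReal Topology RealInnerProductSpace ENNReal Real ContDiff Manifold

namespace Pool.Agent.Helper19.PQ

open Spec

variable {E : Type*} [NormedAddCommGroup E] [InnerProductSpace ℝ E] [FiniteDimensional ℝ E]

private theorem p6_diff {V : E → E} {κ : E → ℝ} (h : Spec.Umb V κ) {x : E} (hx : x ≠ 0) :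
    DifferentiableAt ℝ V x := by
  have h1 : ({0}ᶜ : Set E) ∈ 𝓝 x := isOpen_compl_singleton.mem_nhds hx
  exact (h.smooth.contDiffAt h1).differentiableAt (by norm_num)

private theorem p6_radial {V : E → E} {κ : E → ℝ} (h : Spec.Umb V κ) {x : E} (hx : x ≠ 0) :
    fderiv ℝ V x x = 0 := by
  have h1 : HasDerivAt (fun t : ℝ => t • x) x 1 := by
    simpa using (hasDerivAt_id (1 : ℝ)).smul_const x
  have h2 : HasFDerivAt V (fderiv ℝ V x) ((1 : ℝ) • x) := by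
    rw [one_smul]
    exact (p6_diff h hx).hasFDerivAt
  have h3 : HasDerivAt (fun t : ℝ => V (t • x)) (fderiv ℝ V x x) 1 :=
    h2.comp_hasDerivAt 1 h1
  have h4 : HasDerivAt (fun t : ℝ => V (t • x)) 0 1 := by
    refine (hasDerivAt_const (1 : ℝ) (V x)).congr_of_eventuallyEq ?_
    filter_upwards [lt_mem_nhds (zero_lt_one : (0 : ℝ) < 1)] with t ht
    exact h.homog x t ht
  exact h3.unique h4

private theorem p6_tang {V : E → E} {κ : E → ℝ} (h : Spec.Umb V κ) {x : E} (hx : x ≠ 0) (δ : E) :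
    ⟪x, fderiv ℝ V x δ⟫ = -⟪δ, V x⟫ := by
  have h1 : HasFDerivAt (fun y : E => ⟪y, V y⟫) _ x :=
    (hasFDerivAt_id x).inner ℝ (p6_diff h hx).hasFDerivAt
  have h2 : HasFDerivAt (fun y : E => ⟪y, V y⟫) (0 : E →L[ℝ] ℝ) x := by
    have : (fun y : E => ⟪y, V y⟫) = fun _ => (0 : ℝ) := funext h.tang
    rw [this]
    exact hasFDerivAt_const 0 x
  have h3 := congrArg (fun L : E →L[ℝ] ℝ => L δ) (h1.unique h2)
  simp only [_root_.zero_apply, ContinuousLinearMap.comp_apply,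
    ContinuousLinearMap.prod_apply, fderivInnerCLM_apply, ContinuousLinearMap.id_apply, id] at h3
  linarith

private theorem p6_unit {V : E → E} {κ : E → ℝ} (h : Spec.Umb V κ) {x : E} (hx : x ≠ 0) (δ : E) :
    ⟪V x, fderiv ℝ V x δ⟫ = 0 := by
  have h1 : HasFDerivAt (fun y : E => ⟪V y, V y⟫) _ x :=
    (p6_diff h hx).hasFDerivAt.inner ℝ (p6_diff h hx).hasFDerivAt
  have h2 : HasFDerivAt (fun y : E => ⟪V y, V y⟫) (0 : E →L[ℝ] ℝ) x := by
    refine (hasFDerivAt_const (1 : ℝ) x).congr_of_eventuallyEq ?_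
    filter_upwards [isOpen_compl_singleton.mem_nhds hx] with y hy
    rw [real_inner_self_eq_norm_sq, h.unit y hy, one_pow]
  have h3 := congrArg (fun L : E →L[ℝ] ℝ => L δ) (h1.unique h2)
  simp only [_root_.zero_apply, ContinuousLinearMap.comp_apply,
    ContinuousLinearMap.prod_apply, fderivInnerCLM_apply] at h3
  rw [real_inner_comm (V x)] at h3
  rw [real_inner_comm] at h3 ⊢
  linarith

theorem Umb.fderiv_eq {V : E → E} {κ : E → ℝ} (h : Spec.Umb V κ) {x : E} (hx : x ≠ 0) (δ : E) :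
    fderiv ℝ V x δ = κ x • δ - (κ x / ‖x‖ ^ 2 * ⟪x, δ⟫) • x + ⟪V x, δ⟫ • BV V κ x := by
  have hxn : ‖x‖ ^ 2 ≠ 0 := pow_ne_zero 2 (norm_ne_zero_iff.2 hx)
  obtain ⟨Y, hY⟩ : ∃ Y : E, Y = δ - (⟪x, δ⟫ / ‖x‖ ^ 2) • x - ⟪V x, δ⟫ • V x := ⟨_, rfl⟩
  have hxY : ⟪x, Y⟫ = 0 := by
    rw [hY, inner_sub_right, inner_sub_right, inner_smul_right, inner_smul_right, h.tang,
      real_inner_self_eq_norm_sq]
    field_simp
    ring
  have hVY : ⟪V x, Y⟫ = 0 := by
    rw [hY, inner_sub_right, inner_sub_right, inner_smul_right, inner_smul_right,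
      real_inner_comm x (V x), h.tang, real_inner_self_eq_norm_sq, h.unit x hx]
    ring
  have hδ : δ = (⟪x, δ⟫ / ‖x‖ ^ 2) • x + ⟪V x, δ⟫ • V x + Y := by
    rw [hY]
    abel
  have h1 : fderiv ℝ V x δ = (⟪x, δ⟫ / ‖x‖ ^ 2) • fderiv ℝ V x x +
      ⟪V x, δ⟫ • fderiv ℝ V x (V x) + fderiv ℝ V x Y := by
    conv_lhs => rw [hδ]
    rw [map_add, map_add, map_smul, map_smul]
  rw [h1, p6_radial h hx, smul_zero, zero_add, h.umb x hx Y hxY hVY, hY, BV]
  module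

theorem Umb.inner_BV {V : E → E} {κ : E → ℝ} (h : Spec.Umb V κ) {x : E} (hx : x ≠ 0) :
    ⟪x, BV V κ x⟫ = -1 ∧ ⟪V x, BV V κ x⟫ = -κ x := by
  constructor
  · rw [BV, inner_sub_right, inner_smul_right, h.tang, p6_tang h hx, real_inner_self_eq_norm_sq,
      h.unit x hx]
    ring
  · rw [BV, inner_sub_right, inner_smul_right, p6_unit h hx, real_inner_self_eq_norm_sq,
      h.unit x hx]
    ring

/-- the trace of the derivative. -/
private noncomputable def p6_tr (V : E → E) (x : E) : ℝ :=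
  ∑ i, ⟪stdOrthonormalBasis ℝ E i, fderiv ℝ V x (stdOrthonormalBasis ℝ E i)⟫

private theorem p6_kap {V : E → E} {κ : E → ℝ} (h : Spec.Umb V κ) (hfr : 3 ≤ finrank ℝ E) {x : E}
    (hx : x ≠ 0) : κ x = p6_tr V x / ((finrank ℝ E : ℝ) - 2) := by
  have hN : (0 : ℝ) < (finrank ℝ E : ℝ) - 2 := by
    have : (3 : ℝ) ≤ finrank ℝ E := by exact_mod_cast hfr
    linarith
  have hxn : ‖x‖ ^ 2 ≠ 0 := pow_ne_zero 2 (norm_ne_zero_iff.2 hx)
  rw [eq_div_iff hN.ne']
  set b := stdOrthonormalBasis ℝ E with hb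
  have h1 : ∀ i, ⟪b i, fderiv ℝ V x (b i)⟫ = κ x - κ x / ‖x‖ ^ 2 * (⟪x, b i⟫ * ⟪b i, x⟫) +
      ⟪V x, b i⟫ * ⟪b i, BV V κ x⟫ := by
    intro i
    rw [Umb.fderiv_eq h hx, inner_add_right, inner_sub_right, inner_smul_right, inner_smul_right,
      inner_smul_right, real_inner_self_eq_norm_sq, b.norm_eq_one]
    ring
  have h2 : p6_tr V x = κ x * finrank ℝ E - κ x / ‖x‖ ^ 2 * ⟪x, x⟫ + ⟪V x, BV V κ x⟫ := by
    unfold p6_tr
    rw [Finset.sum_congr rfl fun i _ => h1 i, Finset.sum_add_distrib, Finset.sum_sub_distrib,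
      ← Finset.mul_sum, b.sum_inner_mul_inner, b.sum_inner_mul_inner, Finset.sum_const,
      Finset.card_univ, Fintype.card_fin, nsmul_eq_mul]
    ring
  rw [h2, (Umb.inner_BV h hx).2, real_inner_self_eq_norm_sq]
  field_simp
  ring

private theorem p6_fderiv {V : E → E} {κ : E → ℝ} (h : Spec.Umb V κ) :
    ContDiffOn ℝ 1 (fderiv ℝ V) {0}ᶜ :=
  h.smooth.fderiv_of_isOpen isOpen_compl_singleton (by norm_num)

private theorem p6_tr_contDiffOn {V : E → E} {κ : E → ℝ} (h : Spec.Umb V κ) :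
    ContDiffOn ℝ 1 (p6_tr V) {0}ᶜ := by
  unfold p6_tr
  refine ContDiffOn.sum fun i _ => ?_
  exact contDiffOn_const.inner ℝ ((p6_fderiv h).clm_apply contDiffOn_const)

theorem Umb.contDiffOn_kap {V : E → E} {κ : E → ℝ} (h : Spec.Umb V κ) (hfr : 3 ≤ finrank ℝ E) :
    ContDiffOn ℝ 1 κ {0}ᶜ := by
  refine ((p6_tr_contDiffOn h).div_const ((finrank ℝ E : ℝ) - 2)).congr fun x hx => ?_
  exact p6_kap h hfr hx

theorem Umb.contDiffOn_BV {V : E → E} {κ : E → ℝ} (h : Spec.Umb V κ) (hfr : 3 ≤ finrank ℝ E) :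
    ContDiffOn ℝ 1 (BV V κ) {0}ᶜ := by
  have h1 : ContDiffOn ℝ 1 V {0}ᶜ := h.smooth.of_le (by norm_num)
  unfold BV
  exact ((p6_fderiv h).clm_apply h1).sub ((Umb.contDiffOn_kap h hfr).smul h1)

theorem Umb.homog_kap {V : E → E} {κ : E → ℝ} (h : Spec.Umb V κ) (hfr : 3 ≤ finrank ℝ E) {x : E}
    (hx : x ≠ 0) {t : ℝ} (ht : 0 < t) : κ (t • x) = t⁻¹ * κ x := by
  have htx : t • x ≠ 0 := smul_ne_zero ht.ne' hx
  have h1 : fderiv ℝ V x = t • fderiv ℝ V (t • x) := by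
    have h2 : (fun y : E => V (t • y)) = V := funext fun y => h.homog y t ht
    conv_lhs => rw [← h2]
    exact fderiv_comp_smul t
  have h3 : p6_tr V x = t * p6_tr V (t • x) := by
    unfold p6_tr
    rw [Finset.mul_sum]
    refine Finset.sum_congr rfl fun i _ => ?_
    rw [h1, _root_.smul_apply, inner_smul_right]
  rw [p6_kap h hfr hx, p6_kap h hfr htx, h3]
  field_simp

end Pool.Agent.Helper19.PQ
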